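import Mathlib
import Pool.Agent.KS6_55.TW.Main

/-!
# MP_efd99a_gt: the total mod 2 Betti number is not bounded by any polynomial in the two-number

Q1 asks whether `#₂ M = dim H(M; ℤ/2)` for every connected compact symmetric space `M`. The answer
is no, and the two numbers are not even polynomially related: **for all `c` and `e` there is a
connected compact symmetric space `M` with `dim H(M; ℤ/2) > c (#₂ M) ^ e`.**

The definitions (`IsSymmetricSpace`, `IsSmoothSubmanifold`, `twoNumber`, `Singular.totalBetti`) are
those of the starting file `TwoNumberCounterexample` of the library.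

**The spaces.** Let `r ≥ 1` and `N ≥ 1`. For each of the `2 ^ r - 1` nonzero vectors `c` of
`(ℤ/2) ^ r` take a sphere `S^N`, and let `M` be the quotient of the product of these spheres by the
group `(ℤ/2) ^ r`, where `g` acts on the factor with the index `c` by the sign `(-1) ^ (c · g)` (the
signs form the simplex code). `M` is embedded in a Euclidean space by the tensors
`x_a ⊗ x_b ⊗ x_{a+b}`, where `a`, `b` run over all the vectors of `(ℤ/2) ^ r` and `x_0` is a fixed
unit vector. For `r = 1` this is the real projective space; for `r = 2` it is the space of the unit
decomposable tensors `x ⊗ y ⊗ z` of the starting files, where the two-number is linear in `N` and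
the total Betti number quadratic.

**The two-number** is exactly `2 ^ (2 ^ r - 1 - r) * max (N + 1) (2 ^ r)`: linear in `N` for fixed
`r`. If `x` and `y` are fixed by each other's symmetry there is `g` in `(ℤ/2) ^ r` such that the
coordinates `x_c`, `y_c` are parallel if `c · g = 0` and orthogonal if `c · g = 1`. For three points
the differences satisfy `g_xz = g_xy + g_yz`, or `g_xy = g_yz = g` and `g_xz` is `0` or `g`, because a
vector `b` is orthogonal to all the vectors orthogonal to `a` only if `b = 0` or `b = a`. Hence either
the differences from one point determine the lines of the coordinates, or all the differences are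
the same and some coordinates are pairwise orthogonal. The signs contribute the first factor.

**The total Betti number** is at least `choose (N + r) r`, a polynomial of degree `r` in `N`: the
monomials of degree at most `N` in the `r` generators of `H^*((ℤ/2) ^ r; ℤ/2)` are pulled back to
linearly independent classes of `M`. This is proved with explicit cocycles and with explicit cycles
with coefficients in the polynomial ring in `r` variables: the coefficients are the entries of the
products of the transfer matrix of the shuffles, `∑_i X_i [u and v agree outside the place i]`, whose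
square is zero in characteristic two.
-/

set_option autoImplicit false

open scoped Cardinal
open Pool.Agent.T6.H39.TN Pool.Agent.KS6_55.TW

namespace Pool.Agent.Results.MP_efd99a_gt.NoPolynomialBound

/-- **The total mod 2 Betti number is not bounded by any polynomial in the two-number.**
(1) For all `r, N ≥ 1` there is a connected compact symmetric space `M` of dimension
`(2 ^ r - 1) N` with `#₂ M = 2 ^ (2 ^ r - 1 - r) * max (N + 1) (2 ^ r)` and
`dim H(M; ℤ/2) ≥ choose (N + r) r`.
(2) For all `c` and `e` there is a connected compact symmetric space `M` with
`dim H(M; ℤ/2) > c * (#₂ M) ^ e`. In particular (`c = e = 1`) the equality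
`#₂ M = dim H(M; ℤ/2)` fails. -/
theorem result :
    (∀ r N : ℕ, 1 ≤ r → 1 ≤ N →
      ∃ (E : Type) (_ : NormedAddCommGroup E) (_ : InnerProductSpace ℝ E) (M : Set E)
        (s : M → E ≃ₗᵢ[ℝ] E), FiniteDimensional ℝ E ∧ IsSymmetricSpace M s ∧
        IsSmoothSubmanifold ((2 ^ r - 1) * N) M ∧
        twoNumber s = ((2 ^ (2 ^ r - 1 - r) * max (N + 1) (2 ^ r) : ℕ) : Cardinal.{0}) ∧
        (((N + r).choose r : ℕ) : Cardinal.{0}) ≤ Singular.totalBetti M) ∧
    ∀ c e : ℕ,
      ∃ (E : Type) (_ : NormedAddCommGroup E) (_ : InnerProductSpace ℝ E) (M : Set E)
        (s : M → E ≃ₗᵢ[ℝ] E), FiniteDimensional ℝ E ∧ IsSymmetricSpace M s ∧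
        (c : Cardinal.{0}) * twoNumber s ^ e < Singular.totalBetti M := by
  refine ⟨fun r N hr hN => ?_, fun c e => ?_⟩
  · exact ⟨En r N, inferInstance, inferInstance, Sg r N, symG r N, inferInstance,
      isSymmetricSpace_Sg r N hr hN, isSmoothSubmanifold_Sg r N, twoNumber_eq r N hr hN,
      le_totalBetti_sing r N⟩
  · obtain ⟨r, N, hr, hN, h⟩ := exists_large c e
    refine ⟨En r N, inferInstance, inferInstance, Sg r N, symG r N, inferInstance,
      isSymmetricSpace_Sg r N hr hN, ?_⟩
    refine lt_of_lt_of_le ?_ (le_totalBetti_sing r N)
    rw [twoNumber_eq r N hr hN]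
    exact_mod_cast h

end Pool.Agent.Results.MP_efd99a_gt.NoPolynomialBound
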